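import Pool.Agent.U753.MG.Stm2

set_option autoImplicit false

open scoped BigOperators

namespace Pool.Agent.U580.MG

open Pool.Agent.TH235.PP (Site sh)
open Pool.Agent.U753.MG

lemma mem_near {L : ℕ} [NeZero L] (r : ℕ) (x w : Site L) :
    w ∈ near r x ↔ ∃ i j : ℤ, |i| ≤ (r : ℤ) ∧ |j| ≤ (r : ℤ) ∧
      w = (x.1 + (i : ZMod L), x.2 + (j : ZMod L)) := by
  unfold near
  rw [Finset.mem_image]
  constructor
  · rintro ⟨⟨p, q⟩, -, h⟩
    refine ⟨(p.val : ℤ) - r, (q.val : ℤ) - r, ?_, ?_, ?_⟩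
    · have := p.isLt
      rw [abs_le]; constructor <;> omega
    · have := q.isLt
      rw [abs_le]; constructor <;> omega
    · rw [← h]
      unfold sh
      ext <;> simp <;> ring
  · rintro ⟨i, j, hi, hj, rfl⟩
    rw [abs_le] at hi hj
    refine ⟨(⟨(i + r).toNat, by omega⟩, ⟨(j + r).toNat, by omega⟩), Finset.mem_univ _, ?_⟩
    have e1 : (((i + r).toNat : ℕ) : ZMod L) = (i : ZMod L) + (r : ZMod L) := by
      have : (((i + r).toNat : ℤ)) = i + r := Int.toNat_of_nonneg (by omega)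
      calc (((i + r).toNat : ℕ) : ZMod L) = ((((i + r).toNat : ℕ) : ℤ) : ZMod L) := by push_cast; rfl
        _ = ((i + r : ℤ) : ZMod L) := by rw [this]
        _ = _ := by push_cast; ring
    have e2 : (((j + r).toNat : ℕ) : ZMod L) = (j : ZMod L) + (r : ZMod L) := by
      have : (((j + r).toNat : ℤ)) = j + r := Int.toNat_of_nonneg (by omega)
      calc (((j + r).toNat : ℕ) : ZMod L) = ((((j + r).toNat : ℕ) : ℤ) : ZMod L) := by push_cast; rfl
        _ = ((j + r : ℤ) : ZMod L) := by rw [this]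
        _ = _ := by push_cast; ring
    unfold sh
    ext
    · simp only [e1]; ring
    · simp only [e2]; ring

lemma near_symm {L : ℕ} [NeZero L] {r : ℕ} {x w : Site L} (h : w ∈ near r x) : x ∈ near r w := by
  rw [mem_near] at h ⊢
  obtain ⟨i, j, hi, hj, rfl⟩ := h
  refine ⟨-i, -j, by rwa [abs_neg], by rwa [abs_neg], ?_⟩
  ext <;> simp

lemma near_tri {L : ℕ} [NeZero L] {r b : ℕ} (hb : 2 * r ≤ b) {v x w : Site L} (h : x ∈ near r v)
    (h' : w ∈ near r x) : w ∈ near b v := by
  rw [mem_near] at h h' ⊢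
  obtain ⟨i, j, hi, hj, rfl⟩ := h
  obtain ⟨i', j', hi', hj', rfl⟩ := h'
  rw [abs_le] at hi hj hi' hj'
  refine ⟨i + i', j + j', ?_, ?_, ?_⟩
  · rw [abs_le]; constructor <;> omega
  · rw [abs_le]; constructor <;> omega
  · ext <;> simp <;> ring

lemma near_mono {L : ℕ} [NeZero L] {r b : ℕ} (hb : 2 * r ≤ b) {v w : Site L} (h : w ∈ near r v) :
    w ∈ near b v := by
  rw [mem_near] at h ⊢
  obtain ⟨i, j, hi, hj, rfl⟩ := h
  rw [abs_le] at hi hj
  exact ⟨i, j, by rw [abs_le]; constructor <;> omega, by rw [abs_le]; constructor <;> omega, rfl⟩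

lemma diff_eq {L : ℕ} [NeZero L] (r : ℕ) (g : Site L → Finset (Site L) → ℝ) (v : Site L)
    (A : Finset (Site L)) (hv : v ∉ A) :
    locf g r (insert v A) = locf g r A + (g v (insert v A ∩ near r v) +
      ∑ x ∈ A.filter (fun x => v ∈ near r x), (g x (insert v A ∩ near r x) - g x (A ∩ near r x))) := by
  unfold locf
  rw [Finset.sum_insert hv, Finset.sum_filter]
  have : ∀ x ∈ A, g x (insert v A ∩ near r x) = g x (A ∩ near r x) +
      (if v ∈ near r x then (g x (insert v A ∩ near r x) - g x (A ∩ near r x)) else 0) := by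
    intro x _
    split_ifs with h
    · ring
    · rw [Finset.insert_inter_of_notMem h, add_zero]
  rw [Finset.sum_congr rfl this, Finset.sum_add_distrib]
  ring

theorem t_area : StmArea := by
  intro L _ b r hb g v B hv
  have hv' : v ∉ B ∩ near b v := fun h => hv (Finset.mem_inter.1 h).1
  rw [diff_eq r g v _ hv', diff_eq r g v B hv]
  have key : ∀ x : Site L, (∀ w ∈ near r x, w ∈ near b v) →
      (insert v (B ∩ near b v)) ∩ near r x = (insert v B) ∩ near r x ∧
      (B ∩ near b v) ∩ near r x = B ∩ near r x := by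
    intro x hx
    constructor
    · ext w
      simp only [Finset.mem_inter, Finset.mem_insert]
      constructor
      · rintro ⟨h | h, h'⟩
        · exact ⟨Or.inl h, h'⟩
        · exact ⟨Or.inr h.1, h'⟩
      · rintro ⟨h | h, h'⟩
        · exact ⟨Or.inl h, h'⟩
        · exact ⟨Or.inr ⟨h, hx w h'⟩, h'⟩
    · ext w
      simp only [Finset.mem_inter]
      constructor
      · rintro ⟨⟨h, _⟩, h'⟩; exact ⟨h, h'⟩
      · rintro ⟨h, h'⟩; exact ⟨⟨h, hx w h'⟩, h'⟩
  have hf : (B ∩ near b v).filter (fun x => v ∈ near r x) = B.filter (fun x => v ∈ near r x) := by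
    ext x
    simp only [Finset.mem_filter, Finset.mem_inter]
    constructor
    · rintro ⟨⟨h, _⟩, h'⟩; exact ⟨h, h'⟩
    · rintro ⟨h, h'⟩; exact ⟨⟨h, near_mono hb (near_symm h')⟩, h'⟩
  rw [hf, (key v (fun w hw => near_mono hb hw)).1]
  have hs : ∑ x ∈ B.filter (fun x => v ∈ near r x),
      (g x (insert v (B ∩ near b v) ∩ near r x) - g x (B ∩ near b v ∩ near r x)) =
      ∑ x ∈ B.filter (fun x => v ∈ near r x), (g x (insert v B ∩ near r x) - g x (B ∩ near r x)) := by
    refine Finset.sum_congr rfl fun x hx => ?_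
    have hx' := (Finset.mem_filter.1 hx).2
    obtain ⟨k1, k2⟩ := key x (fun w hw => near_tri hb (near_symm hx') hw)
    rw [k1, k2]
  rw [hs]
  ring

end Pool.Agent.U580.MG
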